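import Pool.Agent.Helper25_CON.Stmts

/-!
Squad CON, modules A_SUB and A_INV.
-/

noncomputable section

namespace Pool.Agent.CON.H31

open Pool.Agent.CON Pool.Agent.H25Cong

theorem a_sub : A_SUB := by
  rintro n L L' k ⟨b, rfl⟩ hk hle hmem
  haveI : DiscreteTopology L' := by
    have hd : DiscreteTopology (Submodule.span ℤ (Set.range b)) := inferInstance
    exact DiscreteTopology.of_subset hd hle
  have htop : Submodule.span ℝ (L' : Set (V n)) = ⊤ := by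
    rw [eq_top_iff, ← b.span_eq, Submodule.span_le]
    rintro _ ⟨i, rfl⟩
    have h1 : (k : ℝ) • b i ∈ L' := hmem _ (Submodule.subset_span ⟨i, rfl⟩)
    have h2 : (k : ℝ) ≠ 0 := by exact_mod_cast hk.ne'
    have h3 : b i = (k : ℝ)⁻¹ • ((k : ℝ) • b i) := by
      rw [smul_smul, inv_mul_cancel₀ h2, one_smul]
    rw [h3]
    exact Submodule.smul_mem _ _ (Submodule.subset_span h1)
  haveI : IsZLattice ℝ L' := ⟨htop⟩
  have hr : Module.finrank ℤ L' = n + 1 := by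
    rw [ZLattice.rank ℝ L']
    simp [V]
  haveI : Module.Finite ℤ L' := ZLattice.module_finite ℝ L'
  haveI : Module.Free ℤ L' := ZLattice.module_free ℝ L'
  refine ⟨(Module.finBasisOfFinrankEq ℤ L' hr).ofZLatticeBasis ℝ L', ?_⟩
  rw [Module.Basis.ofZLatticeBasis_span]

/-- scaling of lattices -/
def sc {n : ℕ} (c : ℝ) (L : Submodule ℤ (V n)) : Submodule ℤ (V n) where
  carrier := {x | ∃ y ∈ L, x = c • y}
  add_mem' := by
    rintro _ _ ⟨x, hx, rfl⟩ ⟨y, hy, rfl⟩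
    exact ⟨x + y, L.add_mem hx hy, by rw [smul_add]⟩
  zero_mem' := ⟨0, L.zero_mem, by simp⟩
  smul_mem' := by
    rintro k _ ⟨x, hx, rfl⟩
    exact ⟨k • x, L.smul_mem k hx, by rw [smul_comm]⟩

lemma isLat_sc {n : ℕ} {c : ℝ} (hc : c ≠ 0) {L : Submodule ℤ (V n)} (hL : IsLat L) :
    IsLat (sc c L) := by
  obtain ⟨b, rfl⟩ := hL
  refine ⟨b.map (LinearEquiv.smulOfNeZero ℝ (V n) c hc), ?_⟩
  have h1 : sc c (Submodule.span ℤ (Set.range b)) =
      (Submodule.span ℤ (Set.range b)).map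
        ((LinearEquiv.smulOfNeZero ℝ (V n) c hc).toLinearMap.restrictScalars ℤ) := by
    ext x
    constructor
    · rintro ⟨y, hy, rfl⟩
      exact ⟨y, hy, rfl⟩
    · rintro ⟨y, hy, rfl⟩
      exact ⟨y, hy, rfl⟩
  rw [h1, Submodule.map_span, ← Set.range_comp]
  rfl

/-- the values of B on an integral lattice -/
lemma val {n : ℕ} {b : Module.Basis (Fin (n + 1)) ℝ (V n)} {c : ℝ}
    (h : ∀ i j, ∃ k : ℤ, B (b i) (b j) = c * k) :
    ∀ x ∈ Submodule.span ℤ (Set.range b), ∀ y ∈ Submodule.span ℤ (Set.range b),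
      ∃ k : ℤ, B x y = c * k := by
  have h1 : ∀ i, ∀ y ∈ Submodule.span ℤ (Set.range b), ∃ k : ℤ, B (b i) y = c * k := by
    intro i y hy
    induction hy using Submodule.span_induction with
    | mem y hy =>
      obtain ⟨j, rfl⟩ := hy
      exact h i j
    | zero => exact ⟨0, by simp⟩
    | add x y _ _ hx hy =>
      obtain ⟨k, hk⟩ := hx
      obtain ⟨l, hl⟩ := hy
      exact ⟨k + l, by rw [B_add_right, hk, hl]; push_cast; ring⟩
    | smul a x _ hx =>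
      obtain ⟨k, hk⟩ := hx
      exact ⟨a * k, by
        rw [← Int.cast_smul_eq_zsmul ℝ, B_smul_right, hk]; push_cast; ring⟩
  intro x hx y hy
  induction hx using Submodule.span_induction with
  | mem x hx =>
    obtain ⟨i, rfl⟩ := hx
    exact h1 i y hy
  | zero => exact ⟨0, by simp⟩
  | add x z _ _ hx hz =>
    obtain ⟨k, hk⟩ := hx
    obtain ⟨l, hl⟩ := hz
    exact ⟨k + l, by rw [B_add_left, hk, hl]; push_cast; ring⟩
  | smul a x _ hx =>
    obtain ⟨k, hk⟩ := hx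
    exact ⟨a * k, by
      rw [← Int.cast_smul_eq_zsmul ℝ, B_smul_left, hk]; push_cast; ring⟩

/-- a common denominator -/
lemma den {n : ℕ} (Γ : Subgroup (V n ≃ₗ[ℝ] V n)) (Λ : Submodule ℤ (V n))
    (hc : Subgroup.Commensurable Γ (OLat Λ))
    (hD : ∀ γ ∈ Γ, ∃ D : ℕ, 0 < D ∧ ∀ x ∈ Λ, (D : ℝ) • γ x ∈ Λ) :
    ∃ D : ℕ, 0 < D ∧ ∀ γ ∈ Γ, ∀ x ∈ Λ, (D : ℝ) • γ x ∈ Λ := by
  classical
  have hfin : ((OLat Λ).subgroupOf Γ).index ≠ 0 := hc.2
  haveI : ((OLat Λ).subgroupOf Γ).FiniteIndex := ⟨hfin⟩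
  haveI : Finite (Γ ⧸ (OLat Λ).subgroupOf Γ) := Subgroup.finite_quotient_of_finiteIndex
  haveI := Fintype.ofFinite (Γ ⧸ (OLat Λ).subgroupOf Γ)
  choose D hD0 hD1 using hD
  let DD : Γ ⧸ (OLat Λ).subgroupOf Γ → ℕ := fun q => D (q.out : Γ).1 (q.out : Γ).2
  refine ⟨∏ q, DD q, Finset.prod_pos fun q _ => hD0 _ _, ?_⟩
  intro γ hγ x hx
  set q : Γ ⧸ (OLat Λ).subgroupOf Γ := QuotientGroup.mk ⟨γ, hγ⟩ with hq
  have h1 : ((q.out : Γ)⁻¹ * ⟨γ, hγ⟩ : Γ) ∈ (OLat Λ).subgroupOf Γ := by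
    rw [← QuotientGroup.eq]
    rw [QuotientGroup.out_eq']
  have h2 : (((q.out : Γ) : V n ≃ₗ[ℝ] V n)⁻¹ * γ) ∈ OLat Λ := h1
  have h3 : ((((q.out : Γ) : V n ≃ₗ[ℝ] V n)⁻¹ * γ) x) ∈ Λ := (h2.2 x).2 hx
  have h4 := hD1 (q.out : Γ).1 (q.out : Γ).2 _ h3
  rw [mul_ap, ap_inv] at h4
  obtain ⟨m, hm⟩ : DD q ∣ ∏ q, DD q := Finset.dvd_prod_of_mem _ (Finset.mem_univ q)
  rw [hm, mul_comm, Nat.cast_mul, mul_smul]
  have h5 : (m : ℝ) • ((DD q : ℝ) • γ x) = m • ((DD q : ℝ) • γ x) := Nat.cast_smul_eq_nsmul ℝ _ _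
  rw [h5]
  exact Λ.nsmul_mem h4 m

theorem a_inv (hSUB : A_SUB) : A_INV := by
  intro n Γ Λ _ hΛ hc hD
  obtain ⟨D, hD0, hD1⟩ := den Γ Λ hc hD
  obtain ⟨b, c, hc0, hb, hspan⟩ := hΛ
  have hval := val hb
  rw [← hspan] at hval
  have hDr : (0 : ℝ) < D := by exact_mod_cast hD0
  -- the invariant lattice
  let L0 : Submodule ℤ (V n) := Submodule.span ℤ {y | ∃ g ∈ Γ, ∃ x ∈ Λ, y = g x}
  have hle : Λ ≤ L0 := fun x hx => Submodule.subset_span ⟨1, Γ.one_mem, x, hx, rfl⟩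
  have hD2 : ∀ x ∈ L0, (D : ℝ) • x ∈ Λ := by
    intro x hx
    induction hx using Submodule.span_induction with
    | mem x hx =>
      obtain ⟨g, hg, y, hy, rfl⟩ := hx
      exact hD1 g hg y hy
    | zero => simp
    | add x y _ _ hx hy => rw [smul_add]; exact Λ.add_mem hx hy
    | smul a x _ hx => rw [smul_comm]; exact Λ.smul_mem a hx
  have hinv : ∀ g ∈ Γ, ∀ x ∈ L0, g x ∈ L0 := by
    intro g hg x hx
    induction hx using Submodule.span_induction with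
    | mem x hx =>
      obtain ⟨h, hh, y, hy, rfl⟩ := hx
      exact Submodule.subset_span ⟨g * h, Γ.mul_mem hg hh, y, hy, rfl⟩
    | zero => simp
    | add x y _ _ hx hy => rw [map_add]; exact L0.add_mem hx hy
    | smul a x _ hx => rw [map_zsmul]; exact L0.smul_mem a hx
  have hlat : IsLat (sc (D : ℝ) L0) := by
    refine hSUB n Λ (sc (D : ℝ) L0) D ⟨b, hspan⟩ hD0 ?_ ?_
    · rintro _ ⟨y, hy, rfl⟩
      exact hD2 y hy
    · intro x hx
      exact ⟨x, hle hx, rfl⟩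
  set t : ℝ := Real.sqrt 2 * D / Real.sqrt c with ht
  have hs2 : 0 < Real.sqrt 2 := Real.sqrt_pos.2 (by norm_num)
  have hsc : 0 < Real.sqrt c := Real.sqrt_pos.2 hc0
  have ht0 : 0 < t := by positivity
  have hvL : ∀ x ∈ sc t L0, ∀ y ∈ sc t L0, ∃ k : ℤ, B x y = 2 * k := by
    rintro _ ⟨x, hx, rfl⟩ _ ⟨y, hy, rfl⟩
    obtain ⟨k, hk⟩ := hval _ (hD2 x hx) _ (hD2 y hy)
    refine ⟨k, ?_⟩
    rw [B_smul_left, B_smul_right] at hk ⊢
    have h1 : t * t = 2 * (D * D) / c := by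
      rw [ht, div_mul_div_comm, Real.mul_self_sqrt hc0.le,
        mul_mul_mul_comm, Real.mul_self_sqrt (by norm_num : (0 : ℝ) ≤ 2)]
    have h2 : t * (t * B x y) = 2 * (D * (D * B x y)) / c := by
      rw [← mul_assoc, h1]; ring
    rw [h2, hk]
    field_simp
  refine ⟨sc t L0, ⟨?_, ?_, ?_⟩, ?_, t, D, ht0, hD0, ?_, ?_⟩
  · have h1 := isLat_sc (c := t * (D : ℝ)⁻¹) (by positivity) hlat
    have h2 : sc (t * (D : ℝ)⁻¹) (sc (D : ℝ) L0) = sc t L0 := by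
      ext x
      constructor
      · rintro ⟨_, ⟨z, hz, rfl⟩, rfl⟩
        refine ⟨z, hz, ?_⟩
        rw [smul_smul]
        congr 1
        field_simp
      · rintro ⟨z, hz, rfl⟩
        refine ⟨_, ⟨z, hz, rfl⟩, ?_⟩
        rw [smul_smul]
        congr 1
        field_simp
    rw [← h2]
    exact h1
  · intro x hx y hy
    obtain ⟨k, hk⟩ := hvL x hx y hy
    exact ⟨2 * k, by rw [hk]; push_cast; ring⟩
  · intro x hx
    exact hvL x hx x hx
  · rintro g hg _ ⟨x, hx, rfl⟩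
    exact ⟨g x, hinv g hg x hx, by rw [map_smul]⟩
  · intro x hx
    refine ⟨(D : ℝ) • x, ?_, by rw [smul_smul, mul_comm]⟩
    have h5 : (D : ℝ) • x = D • x := Nat.cast_smul_eq_nsmul ℝ _ _
    rw [h5]
    exact L0.nsmul_mem (hle hx) D
  · rintro _ ⟨x, hx, rfl⟩
    exact ⟨_, hD2 x hx, by rw [smul_comm]⟩

end Pool.Agent.CON.H31
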